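import Mathlib
import Pool.Agent.helper35.HU.Main

set_option autoImplicit false

open MeasureTheory

universe u v w

namespace Pool.Agent.Results.MP_552283_an.NoUnconditionalBasis

/-- The Haar probability measure of the infinite torus `(ℝ/ℤ)^ℕ`. -/
noncomputable abbrev haar : Measure (ℕ → AddCircle (1 : ℝ)) :=
  Measure.infinitePi fun _ : ℕ => (AddCircle.haarAddCircle : Measure (AddCircle (1 : ℝ)))

/-- The Bohr lift of `n^{-s}`: the product over the primes `q` dividing `n` of
`z_j ^ (exponent of q in n)`, where `j` is the number of primes below `q` and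
`z_j = exp (2 π i ω_j)`. -/
noncomputable def bohr (n : ℕ+) (ω : ℕ → AddCircle (1 : ℝ)) : ℂ :=
  (n : ℕ).factorization.prod fun q k => fourier (k : ℤ) (ω (Nat.primeCounting' q))

/-- `X`, with `d n` in the role of `n^{-s}`, is the Hardy space of Dirichlet series of exponent
`p`: the Dirichlet polynomials `∑ a_n d n` are dense in `X`, and the norm of each of them is the
`L^p` norm of its Bohr lift. -/
def IsHardy (p : ℝ) {X : Type*} [NormedAddCommGroup X] [NormedSpace ℂ X] (d : ℕ+ → X) : Prop :=
  DenseRange (fun a : ℕ+ →₀ ℂ => a.sum fun n z => z • d n) ∧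
    ∀ a : ℕ+ →₀ ℂ, ‖a.sum fun n z => z • d n‖ ^ p = ∫ ω, ‖a.sum fun n z => z * bohr n ω‖ ^ p ∂haar

/-- `e` is an unconditional basis: every vector has exactly one expansion along `e` that
converges in every order. -/
def IsUncondBasis {Y : Type*} [NormedAddCommGroup Y] [NormedSpace ℂ Y] {ι : Type*} (e : ι → Y) :
    Prop :=
  ∀ y : Y, ∃! c : ι → ℂ, HasSum (fun i => c i • e i) y

/-- For every real `p ≥ 120` the Hardy space of Dirichlet series of exponent `p` (which exists as a
Banach space) has no unconditional basis; it is not even complemented in a Banach space with an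
unconditional basis (countable or not); and it fails to have local unconditional structure, with an
exponential lower bound on explicit finite-dimensional subspaces. -/
theorem result (p : ℝ) (hp : 120 ≤ p) :
    (∃ (X : Type) (_ : NormedAddCommGroup X) (_ : NormedSpace ℂ X) (_ : CompleteSpace X)
      (d : ℕ+ → X), IsHardy p d) ∧
    ∀ (X : Type u) [NormedAddCommGroup X] [NormedSpace ℂ X] [CompleteSpace X] (d : ℕ+ → X),
      IsHardy p d →
      (∀ e : ℕ → X, ¬ IsUncondBasis e) ∧
      (∀ (Y : Type v) [NormedAddCommGroup Y] [NormedSpace ℂ Y] [CompleteSpace Y]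
        (ι : Type w) (e : ι → Y), IsUncondBasis e →
        ∀ (J : X →L[ℂ] Y) (P : Y →L[ℂ] X), P.comp J ≠ ContinuousLinearMap.id ℂ X) ∧
      (∀ (n : ℕ) (K : ℝ) (ι : Type w) (φ : ι → X →ₗ[ℂ] ℂ) (y : ι → X),
        (∀ x ∈ Submodule.span ℂ
            (d '' {m : ℕ+ | (m : ℕ) ∣ (∏ j ∈ Finset.range n, Nat.nth Nat.Prime j) ^ 180}),
          HasSum (fun i => φ i x • y i) x ∧
            ∀ S : Finset ι, ‖∑ i ∈ S, φ i x • y i‖ ≤ K * ‖x‖) →
        (1.0005 : ℝ) ^ n ≤ 4 * K) := by
  refine ⟨Helper35.HU.exists_space (by linarith), fun X _ _ _ d hd => ⟨?_, ?_, ?_⟩⟩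
  · intro e he
    exact Helper35.HU.main_global hp d hd.1 hd.2 e he (ContinuousLinearMap.id ℂ X)
      (ContinuousLinearMap.id ℂ X) (ContinuousLinearMap.id_comp _)
  · intro Y _ _ _ ι e he J P
    exact Helper35.HU.main_global hp d hd.1 hd.2 e he J P
  · intro n K ι φ y h
    exact Helper35.HU.main_local hp d hd.1 hd.2 n K φ y (fun x hx => (h x hx).1)
      (fun x hx => (h x hx).2)

end Pool.Agent.Results.MP_552283_an.NoUnconditionalBasis
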